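import Mathlib

set_option autoImplicit false
open Finset Relation

namespace Pool.Agent.Results.MP_5e4462_co.Ears

variable {V : Type} [Fintype V] [DecidableEq V]

/-- Arc relation. -/
def arc (E : Finset (V × V)) (a b : V) : Prop := (a, b) ∈ E

/-- Adjacency in the underlying undirected graph with the vertex `z` deleted. -/
def und (E : Finset (V × V)) (z a b : V) : Prop := a ≠ z ∧ b ≠ z ∧ ((a, b) ∈ E ∨ (b, a) ∈ E)

/-- Strongly connected, and the underlying graph has no articulation point. -/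
def SB (E : Finset (V × V)) : Prop :=
  (∀ u v, ReflTransGen (arc E) u v) ∧ ∀ z u v, u ≠ z → v ≠ z → ReflTransGen (und E z) u v

theorem path {r : V → V → Prop} {x y : V} (h : ReflTransGen r x y) : ∃ (k : ℕ) (p : ℕ → V),
    p 0 = x ∧ p k = y ∧ (∀ i < k, r (p i) (p (i + 1))) ∧ ∀ i j, i < j → j ≤ k → p i ≠ p j := by
  classical
  have ex : ∃ k, ∃ p : ℕ → V, p 0 = x ∧ p k = y ∧ ∀ i < k, r (p i) (p (i + 1)) := by
    induction h with
    | refl => exact ⟨0, fun _ => x, rfl, rfl, by simp⟩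
    | @tail b c _ a ih =>
      obtain ⟨k, p, h1, h2, h3⟩ := ih
      refine ⟨k + 1, fun i => if i ≤ k then p i else c, by simpa, by simp, fun i hi => ?_⟩
      beta_reduce
      rw [if_pos (by omega)]
      split_ifs with c
      · exact h3 i c
      · rw [show i = k by omega, h2]; exact a
  obtain ⟨p, h1, h2, h3⟩ := Nat.find_spec ex
  refine ⟨_, p, h1, h2, h3, fun i j ij jk e => Nat.find_min ex (m := Nat.find ex - (j - i)) (by omega)
    ⟨fun t => if t ≤ i then p t else p (t + (j - i)), by simpa, ?_, fun t ht => ?_⟩⟩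
  · beta_reduce
    split_ifs with c
    · rw [show Nat.find ex - (j - i) = i by omega, e, show j = Nat.find ex by omega, h2]
    · rw [show Nat.find ex - (j - i) + (j - i) = Nat.find ex by omega, h2]
  · beta_reduce
    split_ifs with c d d
    · exact h3 t (by omega)
    · rw [show t = i by omega, e, show i + 1 + (j - i) = j + 1 by omega]; exact h3 j (by omega)
    · omega
    · rw [show t + 1 + (j - i) = t + (j - i) + 1 by omega]; exact h3 _ (by omega)

theorem mono' {r s : V → V → Prop} {a b : V} (h : ReflTransGen r a b) (m : ∀ a b, r a b → s a b) :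
    ReflTransGen s a b := by
  induction h with
  | refl => exact .refl
  | tail _ a ih => exact ih.tail (m _ _ a)

theorem und_symm (E : Finset (V × V)) (z : V) {a b : V} (h : ReflTransGen (und E z) a b) :
    ReflTransGen (und E z) b a :=
  by
  induction h with
  | refl => exact .refl
  | tail _ h ih => exact ih.head ⟨h.2.1, h.1, h.2.2.symm⟩

theorem ear {E : Finset (V × V)} (h : SB E) {U : Finset V} {u0 x0 : V} (hu : u0 ∈ U) (hx : x0 ∉ U) :
    ∃ a ∈ U, ∃ b ∈ U, (a ≠ b ∨ ∀ u ∈ U, u = a) ∧ ∃ y y', y ∉ U ∧ (a, y) ∈ E ∧ (y', b) ∈ E ∧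
      ReflTransGen (fun x y => (x, y) ∈ E ∧ x ∉ U ∧ y ∉ U) y y' := by
  let r := fun x y => (x, y) ∈ E ∧ x ∉ U ∧ y ∉ U
  let I := fun x a => a ∈ U ∧ ∃ y, y ∉ U ∧ (a, y) ∈ E ∧ ReflTransGen r y x
  let O := fun x b => b ∈ U ∧ ∃ y, (y, b) ∈ E ∧ ReflTransGen r x y
  have hI : ∀ x ∉ U, ∃ a, I x a := by
    intro x
    induction h.1 u0 x with
    | refl => exact fun c => absurd hu c
    | @tail b c _ a ih =>
      intro hc
      by_cases hb : b ∈ U
      · exact ⟨b, hb, c, hc, a, .refl⟩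
      · obtain ⟨w, h1, y, h2, h3, h4⟩ := ih hb
        exact ⟨w, h1, y, h2, h3, h4.tail ⟨a, hb, hc⟩⟩
  have hO : ∀ x ∉ U, ∃ a, O x a := by
    intro x
    induction h.1 x u0 using ReflTransGen.head_induction_on with
    | refl => exact fun c => absurd hu c
    | @head b c a _ ih =>
      intro hb
      by_cases hc : c ∈ U
      · exact ⟨c, hc, b, a, .refl⟩
      · obtain ⟨w, h1, y, h2, h3⟩ := ih hc
        exact ⟨w, h1, y, h2, h3.head ⟨a, hb, hc⟩⟩
  by_contra n
  have key : ∀ x a b, I x a → O x b → a = b ∧ ∃ u ∈ U, u ≠ a := by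
    rintro x a b ⟨h1, y, h2, h3, h4⟩ ⟨h5, y', h6, h7⟩
    by_contra c
    refine n ⟨a, h1, b, h5, ?_, y, y', h2, h3, h6, h4.trans h7⟩
    by_contra d
    push Not at d
    exact c d
  obtain ⟨a, ha⟩ := hI x0 hx
  obtain ⟨b, hb⟩ := hO x0 hx
  obtain ⟨-, u, hu, ua⟩ := key _ _ _ ha hb
  have : ∀ y, ReflTransGen (und E a) x0 y → y ∉ U ∧ I y a := by
    intro y t
    induction t with
    | refl => exact ⟨hx, ha⟩
    | @tail y y' _ c ih =>
      obtain ⟨b, hb⟩ := hO y ih.1
      have ab := (key _ _ _ ih.2 hb).1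
      by_cases m : y' ∈ U
      · rcases c.2.2 with d | d
        · exact absurd (key _ _ _ ih.2 ⟨m, y, d, .refl⟩).1.symm c.2.1
        · exact absurd ((key _ _ _ ⟨m, y, ih.1, d, .refl⟩ hb).1.trans ab.symm) c.2.1
      · refine ⟨m, ?_⟩
        rcases c.2.2 with d | d
        · obtain ⟨h1, w, h2, h3, h4⟩ := ih.2
          exact ⟨h1, w, h2, h3, h4.tail ⟨d, ih.1, m⟩⟩
        · obtain ⟨c, h1, w, h2, h3, h4⟩ := hI y' m
          have := (key _ _ _ ⟨h1, w, h2, h3, h4.tail ⟨d, m, ih.1⟩⟩ hb).1.trans ab.symm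
          exact this ▸ ⟨h1, w, h2, h3, h4⟩
  exact (this u (h.2 a x0 u (by rintro rfl; exact hx ha.1) ua)).1 hu

def Inv (E F : Finset (V × V)) (U : Finset V) : Prop :=
  F ⊆ E ∧ U.Nonempty ∧ #F + 2 ≤ 2 * #U ∧ (∀ u ∈ U, ∀ v ∈ U, ReflTransGen (arc F) u v) ∧
    ∀ z, ∀ u ∈ U, ∀ v ∈ U, u ≠ z → v ≠ z → ReflTransGen (und F z) u v

theorem step {E F : Finset (V × V)} (h : SB E) {U : Finset V} (hi : Inv E F U) {x : V} (hx : x ∉ U) :
    ∃ F' U', Inv E F' U' ∧ #U < #U' := by
  obtain ⟨i1, ⟨u0, hu⟩, i3, i4, i5⟩ := hi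
  obtain ⟨a, ha, b, hb, ab, y, y', hy, e1, e2, t⟩ := ear h hu hx
  obtain ⟨k, q, rfl, rfl, q1, q2⟩ := path t
  have qU : ∀ i ≤ k, q i ∉ U := fun i hi => by
    rcases i with _ | i
    exacts [hy, (q1 i hi).2.2]
  let p : ℕ → V := fun i => if i = 0 then a else if i ≤ k + 1 then q (i - 1) else b
  have p0 : p 0 = a := rfl
  have p1 : ∀ i ≤ k, p (i + 1) = q i := fun i hi => by simp [p, hi]
  have p2 : p (k + 2) = b := by simp [p]
  have pE : ∀ i ≤ k + 1, (p i, p (i + 1)) ∈ E := fun i hi => by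
    rcases i with _ | i
    · rw [p1 0 (by omega)]; exact e1
    · rw [p1 i (by omega)]
      rcases (show i < k ∨ i = k by omega) with c | rfl
      · rw [p1 _ c]; exact (q1 i c).1
      · rw [p2]; exact e2
  let F' := F ∪ (range (k + 2)).image fun i => (p i, p (i + 1))
  have pF : ∀ i ≤ k + 1, (p i, p (i + 1)) ∈ F' := fun i hi =>
    mem_union_right _ (mem_image.mpr ⟨i, mem_range.mpr (by omega), rfl⟩)
  have cU : #(U ∪ (range (k + 1)).image q) = #U + (k + 1) := by
    rw [card_union_of_disjoint, card_image_of_injOn, card_range]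
    · intro i hi j hj e
      simp only [coe_range, Set.mem_Iio] at hi hj
      rcases lt_trichotomy i j with l | l | l
      exacts [absurd e (q2 _ _ l (by omega)), l, absurd e.symm (q2 _ _ l (by omega))]
    · refine disjoint_right.mpr fun z hz => ?_
      obtain ⟨i, hi, rfl⟩ := mem_image.mp hz
      exact qU i (by simpa [Nat.lt_succ_iff] using hi)
  have mem : ∀ z ∈ U ∪ (range (k + 1)).image q, z ∈ U ∨ ∃ i ≤ k, z = p (i + 1) := fun z hz =>
    (mem_union.mp hz).imp_right fun hz => by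
      obtain ⟨i, hi, rfl⟩ := mem_image.mp hz
      have := mem_range.mp hi
      exact ⟨i, by omega, (p1 i (by omega)).symm⟩
  have sg : ∀ (r : V → V → Prop) i j, i ≤ j → (∀ t, i ≤ t → t < j → r (p t) (p (t + 1))) →
      ReflTransGen r (p i) (p j) := by
    intro r i j ij
    induction j, ij using Nat.le_induction with
    | base => exact fun _ => .refl
    | succ j ij ih => exact fun h => (ih fun t a b => h t a (by omega)).tail (h j ij (by omega))
  refine ⟨F', U ∪ (range (k + 1)).image q, ⟨union_subset i1 fun e he => ?_, ⟨u0, mem_union_left _ hu⟩,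
    ?_, fun u hu v hv => ?_, fun z u hu v hv uz vz => ?_⟩, by omega⟩
  · obtain ⟨i, hi, rfl⟩ := mem_image.mp he
    exact pE i (by have := mem_range.mp hi; omega)
  · have : #F' ≤ #F + (k + 2) := (card_union_le _ _).trans
      (Nat.add_le_add_left (card_image_le.trans (by simp)) _)
    omega
  · have m : ∀ u ∈ U, ∀ v ∈ U, ReflTransGen (arc F') u v := fun u hu v hv =>
      mono' (i4 u hu v hv) fun _ _ h => mem_union_left _ h
    refine ReflTransGen.trans (b := b) ?_ ((m b hb a ha).trans ?_)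
    · rcases mem u hu with c | ⟨i, hi, rfl⟩
      · exact m _ c _ hb
      · exact p2 ▸ sg _ _ _ (by omega) fun t _ c => pF t (by omega)
    · rcases mem v hv with c | ⟨i, hi, rfl⟩
      · exact m _ ha _ c
      · exact sg _ 0 _ (by omega) fun t _ c => pF t (by omega)
  · have m : ∀ u ∈ U, ∀ v ∈ U, u ≠ z → v ≠ z → ReflTransGen (und F' z) u v := fun u hu v hv a b =>
      mono' (i5 z u hu v hv a b) fun _ _ h =>
        ⟨h.1, h.2.1, h.2.2.imp (mem_union_left _) (mem_union_left _)⟩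
    have s : ∀ i j, i ≤ j → j ≤ k + 2 → (∀ t, i ≤ t → t ≤ j → p t ≠ z) →
        ReflTransGen (und F' z) (p i) (p j) := fun i j ij jk h => sg _ _ _ ij fun t a b =>
      ⟨h t a b.le, h _ (by omega) b, Or.inl (pF t (by omega))⟩
    by_cases c : a = z ∧ b = z
    · have n : ∀ w ∈ U ∪ (range (k + 1)).image q, w ≠ z → ReflTransGen (und F' z) (p 1) w := by
        intro w hw wz
        rcases mem w hw with d | ⟨i, hi, rfl⟩
        · exact absurd (((ab.resolve_left fun n => n (c.1.trans c.2.symm)) w d).trans c.1) wz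
        · refine s _ _ (by omega) (by omega) fun t t1 t2 e => ?_
          obtain ⟨t, rfl⟩ : ∃ s, t = s + 1 := ⟨t - 1, by omega⟩
          rw [p1 t (by omega), ← c.1] at e
          exact qU t (by omega) (e ▸ ha)
      exact (und_symm _ _ (n u hu uz)).trans (n v hv vz)
    · have n : ∀ w ∈ U ∪ (range (k + 1)).image q, w ≠ z → ∃ w' ∈ U, w' ≠ z ∧
          ReflTransGen (und F' z) w' w := by
        intro w hw wz
        rcases mem w hw with d | ⟨i, hi, rfl⟩
        · exact ⟨w, d, wz, .refl⟩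
        by_cases d1 : ∀ t, 0 ≤ t → t ≤ i + 1 → p t ≠ z
        · exact ⟨a, ha, d1 0 le_rfl (by omega), s 0 _ (by omega) (by omega) d1⟩
        by_cases d2 : ∀ t, i + 1 ≤ t → t ≤ k + 2 → p t ≠ z
        · exact ⟨b, hb, p2 ▸ d2 _ (by omega) le_rfl, und_symm _ _ (p2 ▸ s _ _ (by omega) le_rfl d2)⟩
        exfalso
        push Not at d1 d2
        obtain ⟨t, -, t1, e1⟩ := d1
        obtain ⟨t', t2, t3, e2⟩ := d2
        have n1 : t ≠ i + 1 := by rintro rfl; exact wz e1
        have n2 : t' ≠ i + 1 := by rintro rfl; exact wz e2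
        obtain ⟨t', rfl⟩ : ∃ s, t' = s + 1 := ⟨t' - 1, by omega⟩
        rcases t with _ | t <;> rcases (show t' ≤ k ∨ t' = k + 1 by omega) with l | rfl
        · rw [p1 _ l, ← e1, p0] at e2; exact qU _ l (e2 ▸ ha)
        · exact c ⟨e1, p2 ▸ e2⟩
        · rw [p1 _ l, ← e1, p1 _ (by omega)] at e2; exact q2 _ _ (by omega) l e2.symm
        · rw [p1 _ (by omega), ← e2, p2] at e1; exact qU _ (by omega) (e1 ▸ hb)
      obtain ⟨u', a1, a2, a3⟩ := n u hu uz
      obtain ⟨v', b1, b2, b3⟩ := n v hv vz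
      exact (und_symm _ _ a3).trans ((m _ a1 _ b1 a2 b2).trans b3)

theorem result (V : Type) [Fintype V] [DecidableEq V] (E : Finset (V × V))
    (_ : ∀ e ∈ E, e.1 ≠ e.2) (h : SB E) (hm : ∀ e ∈ E, ¬ SB (E.erase e)) :
    #E ≤ 2 * (Fintype.card V - 1) := by
  rcases E.eq_empty_or_nonempty with rfl | ⟨⟨a, -⟩, -⟩
  · simp
  have : ∀ d F U, Inv E F U → Fintype.card V ≤ #U + d → ∃ F, Inv E F univ := by
    intro d
    induction d with
    | zero => exact fun F U hi c => ⟨F, (card_eq_iff_eq_univ U).mp ((card_le_univ U).antisymm c) ▸ hi⟩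
    | succ d ih =>
      intro F U hi c
      by_cases e : ∀ x, x ∈ U
      · exact ⟨F, eq_univ_of_forall e ▸ hi⟩
      push Not at e
      obtain ⟨x, hx⟩ := e
      obtain ⟨F', U', a, b⟩ := step h hi hx
      exact ih F' U' a (by omega)
  obtain ⟨F, i1, -, i3, i4, i5⟩ := this (Fintype.card V) ∅ {a} ⟨by simp, by simp, by simp,
    by simpa using .refl, by simpa using fun _ _ => .refl⟩ (by omega)
  have : E ⊆ F := fun e he => by
    by_contra n
    have s : F ⊆ E.erase e := fun f hf => mem_erase.mpr ⟨by rintro rfl; exact n hf, i1 hf⟩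
    exact hm e he ⟨fun u v => mono' (i4 u (mem_univ _) v (mem_univ _)) fun _ _ h => s h,
      fun z u v a b => mono' (i5 z u (mem_univ _) v (mem_univ _) a b) fun _ _ h =>
        ⟨h.1, h.2.1, h.2.2.imp (@s _) (@s _)⟩⟩
  have := card_le_card this
  rw [card_univ] at i3
  omega

end Pool.Agent.Results.MP_5e4462_co.Ears
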